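import Pool.Agent.H648.Q.Defs

set_option autoImplicit false

namespace Pool.Agent.H321.Q648

open Pool.Agent.H648.Q

/-- primitivity gives a sign -/
lemma sign_exists {D x y w : ℤ} {p : ℕ} (hD : D ≠ 0)
    (hprim : ∀ q : ℤ, Prime q → q ∣ x → q ∣ y → ¬ q ∣ w) (he : x ^ 2 - D * y ^ 2 = p * w ^ 2)
    (q : ℕ) (hq : q.Prime) :
    ∃ ε : ℤ, (ε = 1 ∨ ε = -1) ∧ ¬ ((q : ℤ) ^ (D.natAbs + 3) ∣ 2 * (x + ε * w)) := by
  by_contra hcon
  push Not at hcon
  have h1 := hcon 1 (Or.inl rfl)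
  have h2 := hcon (-1) (Or.inr rfl)
  have hqi : Prime (q : ℤ) := Nat.prime_iff_prime_int.1 hq
  have h3 : (q : ℤ) ^ (D.natAbs + 3) ∣ 4 * x := by
    have := dvd_add h1 h2
    have e : 2 * (x + 1 * w) + 2 * (x + -1 * w) = 4 * x := by ring
    rwa [e] at this
  have h4 : (q : ℤ) ^ (D.natAbs + 3) ∣ 4 * w := by
    have := dvd_sub h1 h2
    have e : 2 * (x + 1 * w) - 2 * (x + -1 * w) = 4 * w := by ring
    rwa [e] at this
  have key : ∀ z : ℤ, (q : ℤ) ^ (D.natAbs + 3) ∣ 4 * z → (q : ℤ) ^ (D.natAbs + 1) ∣ z := by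
    intro z hz
    by_cases hq2 : q = 2
    · subst hq2
      have e : ((2 : ℕ) : ℤ) ^ (D.natAbs + 3) = 4 * ((2 : ℕ) : ℤ) ^ (D.natAbs + 1) := by
        push_cast; ring
      rw [e] at hz
      exact (mul_dvd_mul_iff_left (by norm_num : (4 : ℤ) ≠ 0)).1 hz
    · have hcop : IsCoprime ((q : ℤ) ^ (D.natAbs + 3)) 4 := by
        apply IsCoprime.pow_left
        have h5 : Nat.Coprime q 4 := by
          have : Nat.Coprime q (2 ^ 2) := Nat.Coprime.pow_right 2
            ((Nat.coprime_primes hq Nat.prime_two).2 hq2)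
          simpa using this
        exact_mod_cast Nat.isCoprime_iff_coprime.2 h5
      exact (pow_dvd_pow _ (by omega)).trans (hcop.dvd_of_dvd_mul_left hz)
  have hx := key x h3
  have hw := key w h4
  have hq1 : (q : ℤ) ∣ (q : ℤ) ^ (D.natAbs + 1) := dvd_pow_self _ (by omega)
  have hy : (q : ℤ) ∣ y := by
    by_contra hy
    have h5 : ((q : ℤ) ^ (D.natAbs + 1)) ∣ D * y ^ 2 := by
      have e : D * y ^ 2 = x ^ 2 - p * w ^ 2 := by linarith
      rw [e]
      exact dvd_sub (hx.trans (dvd_pow_self _ two_ne_zero))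
        ((hw.trans (dvd_pow_self _ two_ne_zero)).mul_left _)
    have hcop : IsCoprime ((q : ℤ) ^ (D.natAbs + 1)) (y ^ 2) :=
      IsCoprime.pow ((Prime.coprime_iff_not_dvd hqi).2 hy)
    have h6 : ((q : ℤ) ^ (D.natAbs + 1)) ∣ D := hcop.dvd_of_dvd_mul_right h5
    have h7 := Int.natAbs_dvd_natAbs.2 h6
    rw [Int.natAbs_pow, Int.natAbs_natCast] at h7
    have h8 := Nat.le_of_dvd (Int.natAbs_pos.2 hD) h7
    have h9 := Nat.lt_pow_self (n := D.natAbs + 1) hq.one_lt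
    omega
  exact hprim q hqi (hq1.trans hx) hy (hq1.trans hw)

lemma crt (A E : ℕ) (ε : ℕ → ℤ) (hε : ∀ q ∈ A.primeFactors, ε q = 1 ∨ ε q = -1) :
    ∃ s : ℤ, ∀ q ∈ A.primeFactors, (q : ℤ) ^ E ∣ s - ε q := by
  have hne : ∀ q ∈ A.primeFactors, q ^ E ≠ 0 := fun q hq =>
    pow_ne_zero _ (Nat.prime_of_mem_primeFactors hq).ne_zero
  have hpw : Set.Pairwise (A.primeFactors : Set ℕ) (Function.onFun Nat.Coprime fun q => q ^ E) := by
    intro a ha b hb hab
    exact Nat.Coprime.pow _ _ ((Nat.coprime_primes (Nat.prime_of_mem_primeFactors ha)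
      (Nat.prime_of_mem_primeFactors hb)).2 hab)
  obtain ⟨k, hk⟩ := Nat.chineseRemainderOfFinset (fun q => if ε q = 1 then 1 else q ^ E - 1)
    (fun q => q ^ E) A.primeFactors hne hpw
  refine ⟨k, fun q hq => ?_⟩
  have h1 := (Nat.modEq_iff_dvd.1 (hk q hq).symm)
  rcases hε q hq with h | h
  · rw [if_pos h] at h1
    rw [h]
    push_cast at h1
    exact h1
  · have h2 : ε q ≠ 1 := by rw [h]; norm_num
    rw [if_neg h2] at h1
    rw [h]
    have h3 : 1 ≤ q ^ E := Nat.one_le_iff_ne_zero.2 (hne q hq)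
    rw [Nat.cast_sub h3] at h1
    push_cast at h1
    have e : (k : ℤ) - -1 = ((k : ℤ) - ((q : ℤ) ^ E - 1)) + (q : ℤ) ^ E := by ring
    rw [e]
    exact dvd_add h1 dvd_rfl

theorem leg_of (h : S_LG0) : S_LEG := by
  intro D A hD hA
  by_cases hA1 : A = 1
  · subst hA1
    obtain ⟨p, x, y, w, hp, -, -, hw, he⟩ := h D 1 hD le_rfl
    exact ⟨x, y, w, p, hp, hw, by simp, by simp, he⟩
  have hA2 : 2 ≤ A := by omega
  have hD0 : D ≠ 0 := by
    rintro rfl; exact hD ⟨0, by simp⟩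
  set J := D.natAbs + 3 with hJ
  set E := A ^ (J + 1) with hE
  obtain ⟨p, x, y, w, hp, hpN, hprim, hw, he⟩ := h D (A ^ (J + 1)) hD (Nat.one_le_pow _ _ hA)
  have hsign := sign_exists hD0 hprim he
  choose! ε hε1 hε2 using hsign
  obtain ⟨s, hs⟩ := crt A E ε (fun q hq => hε1 q (Nat.prime_of_mem_primeFactors hq))
  have hp1 : ((A : ℤ) ^ (J + 1)) ∣ (p : ℤ) - 1 := by
    have := Nat.modEq_iff_dvd.1 hpN.symm
    push_cast at this
    exact this
  have hJE : J ≤ E := by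
    have h1 : J + 1 < 2 ^ (J + 1) := Nat.lt_pow_self one_lt_two
    have h2 : 2 ^ (J + 1) ≤ A ^ (J + 1) := Nat.pow_le_pow_left hA2 _
    omega
  have hs2 : ∀ q ∈ A.primeFactors, (q : ℤ) ^ E ∣ s ^ 2 - 1 := by
    intro q hq
    have h1 := hs q hq
    rcases hε1 q (Nat.prime_of_mem_primeFactors hq) with h | h
    · rw [h] at h1
      have e : s ^ 2 - 1 = (s - 1) * (s + 1) := by ring
      rw [e]; exact h1.mul_right _
    · rw [h] at h1
      have e : s ^ 2 - 1 = (s - -1) * (s - 1) := by ring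
      rw [e]; exact h1.mul_right _
  have hs3 : ((A : ℤ) ^ (J + 1)) ∣ s ^ 2 - 1 := by
    rw [← Int.natAbs_dvd_natAbs, Int.natAbs_pow, Int.natAbs_natCast,
      Nat.dvd_iff_prime_pow_dvd_dvd]
    intro q k hq hqk
    rcases Nat.eq_zero_or_pos k with hk | hk
    · rw [hk]; simp
    have h1 : q ∣ A := hq.dvd_of_dvd_pow ((dvd_pow_self q hk.ne').trans hqk)
    have h2 : q ∈ A.primeFactors := Nat.mem_primeFactors.2 ⟨hq, h1, by omega⟩
    have h3 : k ≤ E := by
      have h4 := Nat.le_of_dvd (Nat.pow_pos (by omega : 0 < A)) hqk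
      have h5 : k < q ^ k := Nat.lt_pow_self hq.one_lt
      omega
    have h6 := Int.natAbs_dvd_natAbs.2 (hs2 q h2)
    rw [Int.natAbs_pow, Int.natAbs_natCast] at h6
    exact (pow_dvd_pow q h3).trans h6
  have hsp : ((A : ℤ) ^ (J + 1)) ∣ s ^ 2 - p := by
    have e : s ^ 2 - (p : ℤ) = (s ^ 2 - 1) - (p - 1) := by ring
    rw [e]; exact dvd_sub hs3 hp1
  -- the new solution
  set a : ℤ := (p + s ^ 2) * x + 2 * p * s * w with ha
  set b : ℤ := (s ^ 2 - p) * y with hb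
  set r : ℤ := p * w + 2 * x * s + w * s ^ 2 with hr
  have hid : a ^ 2 - D * b ^ 2 = p * r ^ 2 := by
    have e : a ^ 2 - D * b ^ 2 - p * r ^ 2 =
      (s ^ 2 - p) ^ 2 * (x ^ 2 - D * y ^ 2 - p * w ^ 2) := by
      rw [ha, hb, hr]; ring
    rw [he, sub_self, mul_zero] at e
    linarith
  have hna : ∀ q : ℕ, q.Prime → q ∣ A → ¬ (q : ℤ) ^ J ∣ a := by
    intro q hq hqA hdvd
    have hmem : q ∈ A.primeFactors := Nat.mem_primeFactors.2 ⟨hq, hqA, by omega⟩
    have hqA' : (q : ℤ) ∣ A := by exact_mod_cast hqA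
    have h1 : (q : ℤ) ^ J ∣ (p : ℤ) - 1 :=
      ((pow_dvd_pow _ (by omega)).trans (pow_dvd_pow_of_dvd hqA' (J + 1))).trans hp1
    have h2 : (q : ℤ) ^ J ∣ s ^ 2 - 1 := (pow_dvd_pow _ hJE).trans (hs2 q hmem)
    have h3 : (q : ℤ) ^ J ∣ s - ε q := (pow_dvd_pow _ hJE).trans (hs q hmem)
    apply hε2 q hq
    have e : 2 * (x + ε q * w) = a - ((p - 1) * x + (s ^ 2 - 1) * x + (p - 1) * (2 * s * w) +
        (s - ε q) * (2 * w)) := by
      rw [ha]; ring
    rw [e]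
    refine dvd_sub hdvd ?_
    exact dvd_add (dvd_add (dvd_add (h1.mul_right _) (h2.mul_right _)) (h1.mul_right _))
      (h3.mul_right _)
  have ha0 : a ≠ 0 := by
    intro h0
    obtain ⟨q, hq, hqA⟩ := Nat.exists_prime_and_dvd hA1
    exact hna q hq hqA (by rw [h0]; exact dvd_zero _)
  -- the common factor
  set g : ℕ := Int.gcd a ((A : ℤ) ^ J) with hg
  have hg0 : g ≠ 0 := by
    rw [hg]
    intro h0
    exact ha0 (Int.gcd_eq_zero_iff.1 h0).1
  have hga : (g : ℤ) ∣ a := Int.gcd_dvd_left _ _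
  have hgA : (g : ℤ) ∣ (A : ℤ) ^ J := Int.gcd_dvd_right _ _
  obtain ⟨x', hx'⟩ := hga
  obtain ⟨y', hy'⟩ : ((g : ℤ) * A) ∣ b := by
    have h1 : (g : ℤ) * A ∣ (A : ℤ) ^ (J + 1) := by
      rw [pow_succ]; exact mul_dvd_mul_right hgA _
    rw [hb]
    exact (h1.trans hsp).mul_right _
  have hcopgp : Nat.Coprime g p := by
    have h1 : Nat.Coprime A p := by
      rw [Nat.coprime_comm, hp.coprime_iff_not_dvd]
      intro hpA
      have h2 : (p : ℤ) ∣ (p : ℤ) - 1 :=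
        ((Int.natCast_dvd_natCast.2 hpA).trans (dvd_pow_self _ (by omega))).trans hp1
      have h3 : (p : ℤ) ∣ 1 := by
        have := dvd_sub dvd_rfl h2
        simpa using this
      have h4 : p ∣ 1 := by exact_mod_cast h3
      exact hp.one_lt.ne' (Nat.dvd_one.1 h4)
    have h2 : g ∣ A ^ J := by exact_mod_cast hgA
    exact Nat.Coprime.coprime_dvd_left h2 (Nat.Coprime.pow_left J h1)
  have hgz : (g : ℤ) ≠ 0 := by exact_mod_cast hg0
  obtain ⟨r', hr'⟩ : (g : ℤ) ∣ r := by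
    have h1 : (g : ℤ) ^ 2 ∣ p * r ^ 2 := by
      rw [← hid, hx', hy']
      refine dvd_sub ?_ ?_
      · rw [mul_pow]; exact dvd_mul_right _ _
      · have e : D * (g * A * y') ^ 2 = (g : ℤ) ^ 2 * (D * (A * y') ^ 2) := by ring
        rw [e]; exact dvd_mul_right _ _
    have h2 : IsCoprime ((g : ℤ) ^ 2) (p : ℤ) :=
      IsCoprime.pow_left (Nat.isCoprime_iff_coprime.2 hcopgp)
    have h3 : (g : ℤ) ^ 2 ∣ r ^ 2 := h2.dvd_of_dvd_mul_left h1
    exact (Int.pow_dvd_pow_iff two_ne_zero).1 h3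
  have hfin : x' ^ 2 - D * (A * y') ^ 2 = p * r' ^ 2 := by
    have h1 := hid
    rw [hx', hy', hr'] at h1
    have h2 : (g : ℤ) ^ 2 * (x' ^ 2 - D * (A * y') ^ 2) = (g : ℤ) ^ 2 * (p * r' ^ 2) := by
      linarith
    exact mul_left_cancel₀ (pow_ne_zero 2 hgz) h2
  have hx0 : x' ≠ 0 := by
    rintro rfl
    rw [mul_zero] at hx'
    exact ha0 hx'
  refine ⟨x', A * y', r', p, hp, ?_, ?_, dvd_mul_right _ _, hfin⟩
  · rintro rfl
    apply hD
    have h1 : x' ^ 2 = D * (A * y') ^ 2 := by linarith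
    have hY : (A * y') ≠ 0 := by
      intro h0
      rw [h0] at h1
      apply hx0
      have : x' ^ 2 = 0 := by rw [h1]; ring
      exact pow_eq_zero_iff two_ne_zero |>.1 this
    have h2 : (A * y') ^ 2 ∣ x' ^ 2 := ⟨D, by rw [h1]; ring⟩
    obtain ⟨z, hz⟩ := (Int.pow_dvd_pow_iff two_ne_zero).1 h2
    refine ⟨z, ?_⟩
    rw [hz] at h1
    have h3 : (A * y') ^ 2 * (z * z) = (A * y') ^ 2 * D := by linarith
    exact (mul_left_cancel₀ (pow_ne_zero 2 hY) h3).symm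
  · -- coprime
    by_contra hne
    obtain ⟨q, hq, hqd⟩ := Nat.exists_prime_and_dvd hne
    have hqx : (q : ℤ) ∣ x' := (Int.natCast_dvd_natCast.2 hqd).trans (Int.gcd_dvd_left _ _)
    have hqA' : (q : ℤ) ∣ A := (Int.natCast_dvd_natCast.2 hqd).trans (Int.gcd_dvd_right _ _)
    have hqA : q ∣ A := by exact_mod_cast hqA'
    -- let `q ^ k` be the exact power of `q` in `a`
    have hind : ∀ k : ℕ, k ≤ J → (q : ℤ) ^ k ∣ a := by
      intro k
      induction k with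
      | zero => intro _; simp
      | succ k ih =>
        intro hk
        have h1 := ih (by omega)
        have h2 : (q : ℤ) ^ k ∣ (A : ℤ) ^ J :=
          (pow_dvd_pow _ (by omega)).trans (pow_dvd_pow_of_dvd hqA' J)
        have h3 : (q : ℤ) ^ k ∣ (g : ℤ) := Int.dvd_coe_gcd h1 h2
        rw [hx', pow_succ]
        exact mul_dvd_mul h3 hqx
    exact hna q hq hqA (hind J le_rfl)

end Pool.Agent.H321.Q648
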